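import Mathlib

set_option autoImplicit false

open Finset

namespace Pool.Agent.Lib.MP_29e051_nt

/-- number of divisors -/
def tau (n : ℕ) : ℕ := n.divisors.card

lemma tau_le (n : ℕ) : tau n ≤ n := Nat.card_divisors_le_self n

lemma tau_pos {n : ℕ} (hn : n ≠ 0) : 1 ≤ tau n :=
  Finset.card_pos.2 ⟨1, Nat.one_mem_divisors.2 hn⟩

lemma count_dvd {a M X d : ℕ} (hcop : Nat.Coprime a M) :
    ((range X).filter (fun x => d ∣ a + M * x)).card ≤ X / d + 1 := by
  rw [← card_range (X / d + 1)]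
  apply card_le_card_of_injOn (fun x => x / d)
  · intro x hx
    simp only [coe_filter, mem_range, Set.mem_ofPred_eq, coe_range, Set.mem_Iio] at hx ⊢
    exact Nat.lt_succ_of_le (Nat.div_le_div_right hx.1.le)
  · intro x hx y hy hxy
    simp only [coe_filter, mem_range, Set.mem_ofPred_eq] at hx hy
    have hdM : Nat.Coprime d M := by
      apply Nat.eq_one_of_dvd_one
      rw [← hcop]
      apply Nat.dvd_gcd _ (Nat.gcd_dvd_right _ _)
      have h1 : Nat.gcd d M ∣ a + M * x := (Nat.gcd_dvd_left _ _).trans hx.2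
      exact (Nat.dvd_add_left ((Nat.gcd_dvd_right _ _).mul_right x)).1 h1
    have h1 : a + M * x ≡ a + M * y [MOD d] :=
      ((Nat.modEq_zero_iff_dvd).2 hx.2).trans ((Nat.modEq_zero_iff_dvd).2 hy.2).symm
    have h2 : M * x ≡ M * y [MOD d] := Nat.ModEq.add_left_cancel' a h1
    have h3 : x ≡ y [MOD d] := Nat.ModEq.cancel_left_of_coprime hdM h2
    have h4 : x % d = y % d := h3
    have h5 : x / d = y / d := hxy
    rw [← Nat.div_add_mod x d, ← Nat.div_add_mod y d, h4, h5]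

lemma tau_le_two_mul {n Q : ℕ} (hn : n ≠ 0) (hQ : n ≤ Q * Q) :
    tau n ≤ 2 * ((Icc 1 Q).filter (fun d => d ∣ n)).card := by
  unfold tau
  rw [← card_filter_add_card_filter_not (s := n.divisors) (fun d => d ≤ Q), two_mul]
  apply add_le_add
  · apply card_le_card
    intro d hd
    simp only [mem_filter, Nat.mem_divisors, mem_Icc] at hd ⊢
    exact ⟨⟨Nat.pos_of_dvd_of_pos hd.1.1 (Nat.pos_of_ne_zero hn), hd.2⟩, hd.1.1⟩
  · apply card_le_card_of_injOn (fun d => n / d)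
    · intro d hd
      simp only [coe_filter, Nat.mem_divisors, Set.mem_ofPred_eq, mem_Icc, not_le] at hd ⊢
      obtain ⟨⟨⟨c, rfl⟩, -⟩, hQd⟩ := hd
      have hd0 : 0 < d := by omega
      rw [Nat.mul_div_cancel_left c hd0]
      have hc0 : 0 < c := Nat.pos_of_ne_zero (by rintro rfl; simp at hn)
      refine ⟨⟨hc0, ?_⟩, Dvd.intro_left d rfl⟩
      by_contra hc
      push Not at hc
      nlinarith
    · intro d hd d' hd' h
      simp only [coe_filter, Nat.mem_divisors, Set.mem_ofPred_eq] at hd hd'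
      have h1 := Nat.div_mul_cancel hd.1.1
      have h2 := Nat.div_mul_cancel hd'.1.1
      have h3 : n / d = n / d' := h
      rw [h3] at h1
      have h4 : n / d' ≠ 0 := by
        intro h0; rw [h0] at h2; omega
      exact Nat.eq_of_mul_eq_mul_left (Nat.pos_of_ne_zero h4) (h1.trans h2.symm)

lemma sum_tau_le {a M Q : ℕ} (ha : a ≠ 0) (hcop : Nat.Coprime a M)
    (hQ : ∀ x < Q, a + M * x ≤ Q * Q) :
    ∑ x ∈ range Q, (tau (a + M * x) : ℝ) ≤ Q * (2 * (2 + Real.log Q)) := by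
  have h1 : ∑ x ∈ range Q, tau (a + M * x) ≤ 2 * ∑ d ∈ Icc 1 Q, (Q / d + 1) := by
    calc ∑ x ∈ range Q, tau (a + M * x)
        ≤ ∑ x ∈ range Q, 2 * ((Icc 1 Q).filter (fun d => d ∣ a + M * x)).card :=
          sum_le_sum fun x hx => tau_le_two_mul (by omega) (hQ x (mem_range.1 hx))
      _ = 2 * ∑ d ∈ Icc 1 Q, ((range Q).filter (fun x => d ∣ a + M * x)).card := by
          rw [← mul_sum]
          congr 1
          simp only [card_filter]
          exact sum_comm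
      _ ≤ _ := by
          apply Nat.mul_le_mul_left
          exact sum_le_sum fun d _ => count_dvd hcop
  have h2 : ((∑ d ∈ Icc 1 Q, (Q / d + 1) : ℕ) : ℝ) ≤ Q * (1 + Real.log Q) + Q := by
    push_cast
    rw [sum_add_distrib]
    apply add_le_add
    · have h3 := harmonic_le_one_add_log Q
      rw [harmonic_eq_sum_Icc] at h3
      push_cast at h3
      calc ∑ d ∈ Icc 1 Q, ((Q / d : ℕ) : ℝ) ≤ ∑ d ∈ Icc 1 Q, (Q : ℝ) * (d : ℝ)⁻¹ :=
            sum_le_sum fun d _ => by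
              rw [← div_eq_mul_inv]; exact Nat.cast_div_le
        _ = Q * ∑ d ∈ Icc 1 Q, (d : ℝ)⁻¹ := by rw [mul_sum]
        _ ≤ _ := by gcongr
    · simp
  have h3 : ((∑ x ∈ range Q, tau (a + M * x) : ℕ) : ℝ) ≤
      ((2 * ∑ d ∈ Icc 1 Q, (Q / d + 1) : ℕ) : ℝ) := by exact_mod_cast h1
  rw [Nat.cast_mul] at h3
  push_cast at h3 h2 ⊢
  linarith

/-- the tail `∑_{j ≥ 1} τ(n+j) / k^j` -/
noncomputable def T (k n : ℕ) : ℝ := ∑' j : ℕ, (tau (n + j + 1) : ℝ) / (k : ℝ) ^ (j + 1)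

lemma hasSum_aux (n : ℕ) :
    HasSum (fun j : ℕ => ((n : ℝ) + j + 1) * (1 / 2) ^ (j + 1)) (n + 2) := by
  have h1 : HasSum (fun j : ℕ => (j : ℝ) * (1 / 2) ^ j) 2 := by
    have := hasSum_coe_mul_geometric_of_norm_lt_one (r := (1 / 2 : ℝ)) (by norm_num)
    rw [show (1 / 2 / (1 - 1 / 2) ^ 2 : ℝ) = 2 by norm_num] at this
    exact this
  have h2 : HasSum (fun j : ℕ => (1 / 2 : ℝ) ^ j) 2 := hasSum_geometric_two
  have h3 := (h1.mul_left (1 / 2)).add (h2.mul_left (((n : ℝ) + 1) / 2))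
  rw [show (1 / 2 * 2 + ((n : ℝ) + 1) / 2 * 2) = n + 2 by ring] at h3
  have h4 : (fun j : ℕ => ((n : ℝ) + j + 1) * (1 / 2) ^ (j + 1)) =
      fun b : ℕ => 1 / 2 * ((b : ℝ) * (1 / 2) ^ b) + ((n : ℝ) + 1) / 2 * (1 / 2) ^ b := by
    ext j; ring
  rw [h4]
  exact h3

lemma term_le {k : ℕ} (hk : 2 ≤ k) (n j : ℕ) :
    (tau (n + j + 1) : ℝ) / (k : ℝ) ^ (j + 1) ≤ ((n : ℝ) + j + 1) * (1 / 2) ^ (j + 1) := by
  have h1 : (tau (n + j + 1) : ℝ) ≤ (n : ℝ) + j + 1 := by exact_mod_cast tau_le (n + j + 1)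
  have h2 : (2 : ℝ) ≤ k := by exact_mod_cast hk
  rw [one_div, inv_pow, ← div_eq_mul_inv]
  gcongr

lemma summable_T {k : ℕ} (hk : 2 ≤ k) (n : ℕ) :
    Summable (fun j : ℕ => (tau (n + j + 1) : ℝ) / (k : ℝ) ^ (j + 1)) :=
  Summable.of_nonneg_of_le (fun _ => by positivity) (term_le hk n) (hasSum_aux n).summable

lemma T_le {k : ℕ} (hk : 2 ≤ k) (n : ℕ) : T k n ≤ n + 2 := by
  rw [← (hasSum_aux n).tsum_eq]
  exact (summable_T hk n).tsum_le_tsum (term_le hk n) (hasSum_aux n).summable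

lemma T_nonneg (k n : ℕ) : 0 ≤ T k n := tsum_nonneg fun _ => by positivity

lemma T_split {k : ℕ} (hk : 2 ≤ k) (n t : ℕ) :
    T k n = ∑ j ∈ range t, (tau (n + j + 1) : ℝ) / (k : ℝ) ^ (j + 1) + T k (n + t) / k ^ t := by
  unfold T
  rw [← (summable_T hk n).sum_add_tsum_nat_add t, ← tsum_div_const]
  congr 1
  refine tsum_congr fun j => ?_
  rw [show n + (j + t) + 1 = n + t + j + 1 by ring, div_div, ← pow_add]
  congr 2
  ring

lemma one_le_mul_T {k : ℕ} (hk : 2 ≤ k) (n : ℕ) : 1 ≤ k * T k n := by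
  have h := T_split hk n 1
  have hk0 : (0 : ℝ) < k := by exact_mod_cast (by omega : 0 < k)
  have h1 : (1 : ℝ) ≤ tau (n + 1) := by exact_mod_cast tau_pos (by omega)
  have h2 := T_nonneg k (n + 1)
  simp only [range_one, sum_singleton, add_zero, zero_add, pow_one] at h
  rw [h]
  field_simp
  linarith

lemma pow_mul_T {k : ℕ} (hk : 2 ≤ k) (m : ℕ) : ∃ I : ℕ, (k : ℝ) ^ m * T k 0 = I + T k m := by
  have hk0 : (0 : ℝ) < k := by exact_mod_cast (by omega : 0 < k)
  induction m with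
  | zero => exact ⟨0, by simp⟩
  | succ m ih =>
    obtain ⟨I, hI⟩ := ih
    refine ⟨k * I + tau (m + 1), ?_⟩
    have h := T_split hk m 1
    simp only [range_one, sum_singleton, add_zero, zero_add, pow_one] at h
    rw [pow_succ, mul_comm _ (k : ℝ), mul_assoc, hI, h]
    push_cast
    field_simp
    ring

lemma T_of_dvd {k : ℕ} (hk : 2 ≤ k) {m t : ℕ} (h : ∀ j < t, k ^ t ∣ tau (m + j + 1)) :
    ∃ I : ℕ, T k m = I + T k (m + t) / k ^ t := by
  have hk0 : (0 : ℝ) < k := by exact_mod_cast (by omega : 0 < k)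
  refine ⟨∑ j ∈ range t, tau (m + j + 1) / k ^ (j + 1), ?_⟩
  rw [T_split hk m t]
  congr 1
  push_cast
  refine sum_congr rfl fun j hj => ?_
  have hj' := mem_range.1 hj
  rw [Nat.cast_div ((pow_dvd_pow k (by omega)).trans (h j hj')) (by positivity)]
  push_cast
  rfl

/-- averaging along a progression -/
lemma exists_T_le {k : ℕ} (hk : 2 ≤ k) {a M Q J : ℕ} (hQ0 : 0 < Q)
    (hcop : ∀ j < J, Nat.Coprime (a + j + 1) M)
    (hQ : ∀ x < Q, a + M * x + J ≤ Q * Q) (hJ : ∀ x < Q, a + M * x + J + 2 ≤ k ^ J) :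
    ∃ x < Q, T k (a + M * x) ≤ 5 + 2 * Real.log Q := by
  have hk0 : (0 : ℝ) < k := by exact_mod_cast (by omega : 0 < k)
  have hk2 : (2 : ℝ) ≤ k := by exact_mod_cast hk
  have hlog : 0 ≤ Real.log Q := Real.log_nonneg (by exact_mod_cast hQ0)
  have hgeo : ∑ j ∈ range J, 1 / (k : ℝ) ^ (j + 1) ≤ 1 := by
    calc ∑ j ∈ range J, 1 / (k : ℝ) ^ (j + 1) ≤ ∑ j ∈ range J, (1 / 2) * (1 / 2 : ℝ) ^ j := by
          refine sum_le_sum fun j _ => ?_
          rw [← pow_succ', one_div_pow]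
          gcongr
      _ = (1 / 2) * ∑ j ∈ range J, (1 / 2 : ℝ) ^ j := by rw [mul_sum]
      _ ≤ (1 / 2) * 2 := by
          gcongr
          exact sum_geometric_two_le J
      _ = 1 := by norm_num
  have hsum : ∑ x ∈ range Q, T k (a + M * x) ≤ ∑ _x ∈ range Q, (5 + 2 * Real.log Q) := by
    calc ∑ x ∈ range Q, T k (a + M * x)
        ≤ ∑ x ∈ range Q, (∑ j ∈ range J,
            (tau (a + M * x + j + 1) : ℝ) / (k : ℝ) ^ (j + 1) + 1) := by
          refine sum_le_sum fun x hx => ?_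
          rw [T_split hk _ J]
          gcongr
          rw [div_le_one (by positivity)]
          refine (T_le hk _).trans ?_
          exact_mod_cast hJ x (mem_range.1 hx)
      _ = ∑ j ∈ range J, (∑ x ∈ range Q, (tau (a + j + 1 + M * x) : ℝ)) * (1 / (k : ℝ) ^ (j + 1))
            + Q := by
          rw [sum_add_distrib, sum_comm]
          congr 1
          · refine sum_congr rfl fun j _ => ?_
            rw [sum_mul]
            refine sum_congr rfl fun x _ => ?_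
            rw [show a + M * x + j + 1 = a + j + 1 + M * x by ring]
            ring
          · simp
      _ ≤ ∑ j ∈ range J, (Q * (2 * (2 + Real.log Q))) * (1 / (k : ℝ) ^ (j + 1)) + Q := by
          gcongr with j hj
          have hj' := mem_range.1 hj
          refine sum_tau_le (by omega) (hcop j hj') fun x hx => ?_
          have := hQ x hx
          omega
      _ ≤ (Q * (2 * (2 + Real.log Q))) * 1 + Q := by
          rw [← mul_sum]
          gcongr
      _ = _ := by simp; ring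
  obtain ⟨x, hx, h⟩ := exists_le_of_sum_le ⟨0, mem_range.2 hQ0⟩ hsum
  exact ⟨x, mem_range.1 hx, h⟩

end Pool.Agent.Lib.MP_29e051_nt
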