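import Pool.Agent.Lib.MP_29e051_nt.Key

set_option autoImplicit false

open Finset

namespace Pool.Agent.Lib.MP_29e051_nt

lemma lambert {k : ℕ} (hk : 2 ≤ k) : ∑' n : ℕ, 1 / ((k : ℝ) ^ (n + 1) - 1) = T k 0 := by
  have hkR : (2 : ℝ) ≤ k := by exact_mod_cast hk
  have hr : ‖((k : ℝ)⁻¹)‖ < 1 := by
    rw [Real.norm_eq_abs, abs_of_pos (by positivity)]
    exact inv_lt_one_of_one_lt₀ (by linarith)
  have h := tsum_pow_div_one_sub_eq_tsum_sigma hr 0
  rw [tsum_pnat_eq_tsum_succ (f := fun n : ℕ => (n : ℝ) ^ 0 * ((k : ℝ)⁻¹) ^ n /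
      (1 - ((k : ℝ)⁻¹) ^ n)),
    tsum_pnat_eq_tsum_succ (f := fun n : ℕ => (ArithmeticFunction.sigma 0 n : ℝ) *
      ((k : ℝ)⁻¹) ^ n)] at h
  unfold T
  calc _ = _ := tsum_congr fun n => ?_
    _ = _ := h
    _ = _ := tsum_congr fun n => ?_
  · have h1 : (1 : ℝ) < (k : ℝ) ^ (n + 1) := one_lt_pow₀ (by linarith) (by omega)
    have h2 : (k : ℝ) ^ (n + 1) - 1 ≠ 0 := by linarith
    rw [pow_zero, one_mul, inv_pow]
    field_simp
  · rw [ArithmeticFunction.sigma_zero_apply, inv_pow, zero_add, div_eq_mul_inv]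
    rfl

/-- position `n` carries the digit zero -/
def Z (k n : ℕ) : Prop := k ∣ ⌊T k 0 * (k : ℝ) ^ (n + 1)⌋₊

lemma Z_iff {k : ℕ} (hk : 2 ≤ k) {m t : ℕ} (h : ∀ j < t, k ^ t ∣ tau (m + j + 1)) (i : ℕ) :
    Z k (m + i) ↔ k ∣ ⌊T k (m + t) / k ^ t * (k : ℝ) ^ (i + 1)⌋₊ := by
  obtain ⟨I, hI⟩ := pow_mul_T hk m
  obtain ⟨I', hI'⟩ := T_of_dvd hk h
  have h0 := T_nonneg k (m + t)
  have h1 : T k 0 * (k : ℝ) ^ (m + i + 1) =
      T k (m + t) / k ^ t * (k : ℝ) ^ (i + 1) + ((k * (k ^ i * (I + I')) : ℕ) : ℝ) := by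
    rw [add_assoc, pow_add, ← mul_assoc, mul_comm (T k 0), hI, hI']
    push_cast
    ring
  unfold Z
  rw [h1, Nat.floor_add_natCast (by positivity)]
  exact Nat.dvd_add_left (dvd_mul_right _ _)

lemma exists_zero_run {k : ℕ} (hk : 2 ≤ k) (r : ℕ) : ∃ m, ∀ i < r, Z k (m + i) := by
  obtain ⟨E, hE⟩ := key hk 0 r
  obtain ⟨m, t, -, -, h, hT⟩ := hE E le_rfl
  have hkR : (2 : ℝ) ≤ k := by exact_mod_cast hk
  refine ⟨m, fun i hi => ?_⟩
  rw [Z_iff hk h]
  have h0 := T_nonneg k (m + t)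
  have : ⌊T k (m + t) / k ^ t * (k : ℝ) ^ (i + 1)⌋₊ = 0 := by
    rw [Nat.floor_eq_zero, div_mul_eq_mul_div, div_lt_one (by positivity)]
    refine lt_of_le_of_lt ?_ hT
    have : (k : ℝ) ^ (i + 1) ≤ k ^ r := pow_le_pow_right₀ (by linarith) hi
    gcongr
  rw [this]
  exact dvd_zero k

lemma exists_nonzero {k : ℕ} (hk : 2 ≤ k) (u : ℕ) : ∃ E, ∀ e ≥ E, ∃ w < k ^ e,
    ¬ Z k (w + k ^ e * u) := by
  obtain ⟨E, hE⟩ := key hk u 0
  refine ⟨E, fun e he => ?_⟩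
  obtain ⟨m, t, hm1, hm2, h, hT⟩ := hE e he
  have hkR : (2 : ℝ) ≤ k := by exact_mod_cast hk
  by_contra hcon
  push Not at hcon
  have hZ : ∀ i ≤ t, Z k (m + i) := by
    intro i hi
    have h3 : k ^ e * (u + 1) = k ^ e * u + k ^ e := by ring
    have := hcon (m + i - k ^ e * u) (by omega)
    rwa [Nat.sub_add_cancel (by omega)] at this
  have h0 := T_nonneg k (m + t)
  have hind : ∀ i ≤ t + 1, T k (m + t) / k ^ t * (k : ℝ) ^ i < 1 := by
    intro i
    induction i with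
    | zero =>
      intro _
      rw [pow_zero, mul_one] at hT ⊢
      rwa [div_lt_one (by positivity)]
    | succ i ih =>
      intro hi
      have h1 := ih (by omega)
      have h2 := (Z_iff hk h i).1 (hZ i (by omega))
      have h3 : ⌊T k (m + t) / k ^ t * (k : ℝ) ^ (i + 1)⌋₊ < k := by
        rw [Nat.floor_lt (by positivity), pow_succ, ← mul_assoc]
        nlinarith
      rw [← Nat.floor_eq_zero]
      exact Nat.eq_zero_of_dvd_of_lt h2 h3
  have h1 := hind (t + 1) le_rfl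
  have h2 := one_le_mul_T hk (m + t)
  rw [show T k (m + t) / k ^ t * (k : ℝ) ^ (t + 1) = k * T k (m + t) by
    field_simp; ring] at h1
  linarith

lemma digits_block {k : ℕ} (hk : 2 ≤ k) {e w : ℕ} (hw : w < k ^ e) :
    ∃ L : List ℕ, ∀ v, 0 < v → Nat.digits k (w + k ^ e * v) = L ++ Nat.digits k v := by
  have h1 : (Nat.digits k w).length ≤ e := (Nat.digits_length_le_iff (by omega) w).2 hw
  refine ⟨Nat.digits k w ++ List.replicate (e - (Nat.digits k w).length) 0, fun v hv => ?_⟩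
  rw [Nat.digits_append_zeroes_append_digits (by omega) hv, Nat.add_sub_cancel' h1]

/-- No finite colouring of the prefixes determines the zero pattern. -/
lemma no_colouring {k : ℕ} (hk : 2 ≤ k) {C : Type} [Finite C] (c : ℕ → C)
    (hc : ∀ u v, 0 < u → 0 < v → c u = c v → ∀ e, ∀ w < k ^ e,
      Z k (w + k ^ e * u) → Z k (w + k ^ e * v)) : False := by
  have h1 : ∀ e, ∃ v, 0 < v ∧ ∀ w < k ^ e, Z k (w + k ^ e * v) := by
    intro e
    obtain ⟨m, hm⟩ := exists_zero_run hk (2 * k ^ e)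
    have hpos : 0 < k ^ e := by positivity
    refine ⟨m / k ^ e + 1, Nat.succ_pos _, fun w hw => ?_⟩
    have h2 := Nat.div_add_mod m (k ^ e)
    have h3 := Nat.mod_lt m hpos
    have h4 : k ^ e * (m / k ^ e + 1) = k ^ e * (m / k ^ e) + k ^ e := by ring
    rw [h4]
    generalize k ^ e * (m / k ^ e) = A at h2
    generalize k ^ e = B at *
    have := hm (w + (A + B) - m) (by omega)
    rwa [Nat.add_sub_cancel' (by omega)] at this
  choose v hv0 hv using h1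
  obtain ⟨y, hy⟩ := Finite.exists_infinite_fiber (fun e => c (v e))
  have hy' : ((fun e => c (v e)) ⁻¹' {y}).Infinite := Set.infinite_coe_iff.1 hy
  obtain ⟨e0, he0⟩ := hy'.nonempty
  obtain ⟨E, hE⟩ := exists_nonzero hk (v e0)
  obtain ⟨e, he, hEe⟩ := hy'.exists_gt E
  obtain ⟨w, hw, hZ⟩ := hE e hEe.le
  exact hZ (hc (v e) (v e0) (hv0 e) (hv0 e0) (he.trans he0.symm) e w hw (hv e w hw))

end Pool.Agent.Lib.MP_29e051_nt
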