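import Pool.Agent.Lib.MP_29e051_nt.Avg

set_option autoImplicit false

open Finset

namespace Pool.Agent.Lib.MP_29e051_nt

lemma factorization_eq {p k n : ℕ} (hp : p.Prime) (hk : 2 ≤ k) (hn : n ≠ 0)
    (h : n ≡ p ^ (k - 1) [MOD p ^ k]) : n.factorization p + 1 = k := by
  have h1 : p ^ (k - 1) ∣ n := by
    have := (h.of_dvd (pow_dvd_pow p (Nat.sub_le k 1)))
    exact (Nat.modEq_zero_iff_dvd).1 (this.trans ((Nat.modEq_zero_iff_dvd).2 dvd_rfl))
  have h2 : ¬ p ^ k ∣ n := by
    intro h2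
    have h3 : p ^ k ∣ p ^ (k - 1) :=
      (Nat.modEq_zero_iff_dvd).1 (h.symm.trans ((Nat.modEq_zero_iff_dvd).2 h2))
    have := (Nat.pow_dvd_pow_iff_le_right hp.one_lt).1 h3
    omega
  rw [hp.pow_dvd_iff_le_factorization hn] at h1 h2
  omega

lemma exists_crt {k : ℕ} (hk : 2 ≤ k) (t : ℕ) : ∃ M m0 : ℕ, 0 < M ∧
    M ≤ 2 ^ ((t + t * t) * k * (t * t)) ∧ ∀ m, m ≡ m0 [MOD M] →
      (∀ j < t, k ^ t ∣ tau (m + j + 1)) ∧
      (∀ j, t ≤ j → j < 2 ^ t → Nat.Coprime (m + j + 1) M) := by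
  have hex : ∀ s : ℕ, ∃ p : ℕ, p.Prime ∧ 2 ^ (t + s) < p ∧ p ≤ 2 * 2 ^ (t + s) := fun s =>
    Nat.exists_prime_lt_and_le_two_mul _ (by positivity)
  choose p hp hp1 hp2 using hex
  have hmono : StrictMono p := by
    apply strictMono_nat_of_lt_succ
    intro s
    have h1 := hp2 s
    have h2 := hp1 (s + 1)
    rw [← add_assoc, pow_succ] at h2
    omega
  have hbig : ∀ s, 2 ^ t < p s := fun s =>
    lt_of_le_of_lt (Nat.pow_le_pow_right (by norm_num) (Nat.le_add_right t s)) (hp1 s)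
  have htlt : t < 2 ^ t := Nat.lt_two_pow_self
  have hpair : Set.Pairwise (range (t * t) : Set ℕ) (Function.onFun Nat.Coprime
      (fun s => p s ^ k)) := by
    intro a _ b _ hab
    exact Nat.Coprime.pow _ _ ((Nat.coprime_primes (hp a) (hp b)).2 (hmono.injective.ne hab))
  obtain ⟨m0, hm0⟩ := Nat.chineseRemainderOfFinset
    (fun s => p s ^ (k - 1) + (p s ^ k - (s / t + 1))) (fun s => p s ^ k) (range (t * t))
    (fun s _ => pow_ne_zero _ (hp s).ne_zero) hpair
  refine ⟨∏ s ∈ range (t * t), p s ^ k, m0, prod_pos fun s _ => pow_pos (hp s).pos _, ?_, ?_⟩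
  · calc ∏ s ∈ range (t * t), p s ^ k ≤ ∏ _s ∈ range (t * t), (2 ^ (t + t * t)) ^ k := by
          refine prod_le_prod' fun s hs => Nat.pow_le_pow_left ((hp2 s).trans ?_) k
          rw [← pow_succ']
          exact Nat.pow_le_pow_right (by norm_num) (by have := mem_range.1 hs; omega)
      _ = _ := by rw [prod_const, card_range, ← pow_mul, ← pow_mul, mul_assoc]
  intro m hm
  have key : ∀ s < t * t, m + s / t + 1 ≡ p s ^ (k - 1) [MOD p s ^ k] := by
    intro s hs
    have h1 : m ≡ m0 [MOD p s ^ k] :=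
      hm.of_dvd (dvd_prod_of_mem (fun s => p s ^ k) (mem_range.2 hs))
    have h2 := h1.trans (hm0 s (mem_range.2 hs))
    have h3 : s / t < t := Nat.div_lt_of_lt_mul hs
    have h4 : p s ≤ p s ^ k := Nat.le_self_pow (by omega) _
    have h5 := hbig s
    have h6 := h2.add_right (s / t + 1)
    rw [add_assoc (p s ^ (k - 1)), Nat.sub_add_cancel (by omega)] at h6
    rw [add_assoc]
    exact h6.trans (by simp [Nat.ModEq])
  constructor
  · intro j hj
    have hn : m + j + 1 ≠ 0 := by omega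
    have hidx : ∀ i < t, j * t + i < t * t ∧ (j * t + i) / t = j := by
      intro i hi
      refine ⟨by nlinarith, ?_⟩
      rw [add_comm, Nat.add_mul_div_right _ _ (by omega), Nat.div_eq_of_lt hi, zero_add]
    have hfac : ∀ i < t, (m + j + 1).factorization (p (j * t + i)) + 1 = k := by
      intro i hi
      have := key _ (hidx i hi).1
      rw [(hidx i hi).2] at this
      exact factorization_eq (hp _) hk hn this
    unfold tau
    rw [Nat.card_divisors hn]
    have hsub : (range t).image (fun i => p (j * t + i)) ⊆ (m + j + 1).primeFactors := by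
      intro q hq
      obtain ⟨i, hi, rfl⟩ := mem_image.1 hq
      have := hfac i (mem_range.1 hi)
      rw [← Nat.support_factorization, Finsupp.mem_support_iff]
      omega
    refine Dvd.dvd.trans ?_ (prod_dvd_prod_of_subset _ _ _ hsub)
    rw [prod_image (fun a _ b _ h => by simpa using hmono.injective h)]
    rw [prod_congr rfl (fun i hi => hfac i (mem_range.1 hi)), prod_const, card_range]
  · intro j hj hj2
    refine Nat.Coprime.prod_right fun s hs => Nat.Coprime.pow_right _ ?_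
    rw [Nat.coprime_comm, (hp s).coprime_iff_not_dvd]
    intro hd
    have h1 := key s (mem_range.1 hs)
    have h2 : p s ∣ m + s / t + 1 := by
      have h3 := h1.of_dvd (dvd_pow_self (p s) (by omega : k ≠ 0))
      exact (Nat.modEq_zero_iff_dvd).1 (h3.trans ((Nat.modEq_zero_iff_dvd).2
        (dvd_pow_self _ (by omega))))
    have h3 : s / t < t := Nat.div_lt_of_lt_mul (mem_range.1 hs)
    have h4 : p s ∣ j - s / t := by
      have := Nat.dvd_sub hd h2
      rwa [show m + j + 1 - (m + s / t + 1) = j - s / t by omega] at this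
    have h5 := Nat.le_of_dvd (by omega) h4
    have h6 := hbig s
    have h7 : j - s / t ≤ j := Nat.sub_le _ _
    omega

lemma eventually_poly (k c d : ℕ) : ∃ S : ℕ, ∀ s ≥ S, 4 * k * (s + c) ^ 4 + d ≤ 2 ^ s := by
  have h1 := tendsto_pow_const_div_const_pow_of_one_lt 5 (r := 2) (by norm_num)
  have h2 := h1.eventually (gt_mem_nhds (show (0 : ℝ) < 1 by norm_num))
  obtain ⟨S, hS⟩ := Filter.eventually_atTop.1 h2
  refine ⟨S + c + 64 * k + d + 1, fun s hs => ?_⟩
  have h3 := hS s (by omega)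
  rw [div_lt_one (by positivity)] at h3
  have h4 : s ^ 5 < 2 ^ s := by exact_mod_cast h3
  have h5 : (s + c) ^ 4 ≤ (2 * s) ^ 4 := Nat.pow_le_pow_left (by omega) 4
  have h6 : 1 ≤ s ^ 4 := Nat.one_le_pow _ _ (by omega)
  have h7 : 64 * k + d ≤ s := by omega
  calc 4 * k * (s + c) ^ 4 + d ≤ 4 * k * (2 * s) ^ 4 + d * s ^ 4 := by
        gcongr
        exact Nat.le_mul_of_pos_right _ h6
    _ = (64 * k + d) * s ^ 4 := by ring
    _ ≤ s * s ^ 4 := by gcongr
    _ = s ^ 5 := by ring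
    _ ≤ 2 ^ s := h4.le

/-- The localized Erdős construction. -/
lemma key {k : ℕ} (hk : 2 ≤ k) (u r : ℕ) : ∃ E : ℕ, ∀ e ≥ E, ∃ m t : ℕ,
    k ^ e * u ≤ m ∧ m + t < k ^ e * (u + 1) ∧ (∀ j < t, k ^ t ∣ tau (m + j + 1)) ∧
      T k (m + t) * k ^ r < k ^ t := by
  obtain ⟨S, hS⟩ := eventually_poly k (r + 5) (2 * u + 12)
  refine ⟨2 ^ S, fun e he => ?_⟩
  set s := Nat.log 2 (e + u + 3) with hs
  have hs1 : 2 ^ s ≤ e + u + 3 := Nat.pow_log_le_self 2 (by omega)
  have hs2 : e + u + 3 < 2 ^ (s + 1) := Nat.lt_pow_succ_log_self (by norm_num) _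
  have hsS : S ≤ s := Nat.le_log_of_pow_le (by norm_num) (by omega)
  set t := s + (r + 5) with ht
  have hC2 : 4 * k * t ^ 4 + u + 9 ≤ e := by
    have := hS s hsS
    rw [← ht] at this
    omega
  obtain ⟨M, m0, hM0, hM, hcrt⟩ := exists_crt hk t
  set g := (e + u + 3) / 2 with hg
  set J := e + u + 2 with hJ
  have hk1 : 1 ≤ k := by omega
  have ht5 : 5 ≤ t := by omega
  have hMk : M ≤ k ^ (2 * k * t ^ 4) := by
    refine hM.trans ((Nat.pow_le_pow_right (by norm_num) ?_).trans (Nat.pow_le_pow_left hk _))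
    have : t + t * t ≤ 2 * (t * t) := by nlinarith
    calc (t + t * t) * k * (t * t) ≤ 2 * (t * t) * k * (t * t) := by gcongr
      _ = 2 * k * t ^ 4 := by ring
  obtain ⟨f, hf⟩ : ∃ f, e = 2 * k * t ^ 4 + g + 2 + f := by
    refine Nat.exists_eq_add_of_le ?_
    have : 4 * k * t ^ 4 = 2 * (2 * k * t ^ 4) := by ring
    omega
  have hQpos : 0 < k ^ g := by positivity
  have hfit : M * (k ^ g + 1) + t < k ^ e := by
    have h1 : M * (k ^ g + 1) ≤ k ^ (2 * k * t ^ 4 + g + f) * 2 := by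
      calc M * (k ^ g + 1) ≤ k ^ (2 * k * t ^ 4) * (k ^ g * 2) := by
            gcongr; omega
        _ = k ^ (2 * k * t ^ 4 + g) * 2 := by ring
        _ ≤ _ := Nat.mul_le_mul_right _ (Nat.pow_le_pow_right (by omega) (by omega))
    have h2 : t < k ^ (2 * k * t ^ 4 + g + f) := by
      have h3 : t ≤ t ^ 4 := Nat.le_self_pow (by norm_num) t
      have h4 : t ≤ 2 * k * t ^ 4 + g + f := by nlinarith
      exact lt_of_le_of_lt h4 (Nat.lt_pow_self (by omega))
    have h3 : k ^ e = k ^ (2 * k * t ^ 4 + g + f) * (k * k) := by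
      conv_lhs => rw [hf]
      ring
    have h4 : 4 ≤ k * k := by nlinarith
    have h5 : k ^ (2 * k * t ^ 4 + g + f) * 4 ≤ k ^ e := by rw [h3]; gcongr
    omega
  -- the first element of the class above `k ^ e * u`
  obtain ⟨m1, hm1, hm1a, hm1b⟩ : ∃ m1, m1 ≡ m0 [MOD M] ∧ k ^ e * u ≤ m1 ∧ m1 ≤ k ^ e * u + M := by
    refine ⟨k ^ e * u + (m0 + (M - 1) * (k ^ e * u)) % M, ?_, by omega,
      by have := Nat.mod_lt (m0 + (M - 1) * (k ^ e * u)) hM0; omega⟩
    have h1 : k ^ e * u + (m0 + (M - 1) * (k ^ e * u)) % M ≡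
        k ^ e * u + (m0 + (M - 1) * (k ^ e * u)) [MOD M] := (Nat.mod_modEq _ _).add_left _
    refine h1.trans ?_
    obtain ⟨M', rfl⟩ : ∃ M', M = M' + 1 := ⟨M - 1, by omega⟩
    rw [show k ^ e * u + (m0 + (M' + 1 - 1) * (k ^ e * u)) = m0 + (M' + 1) * (k ^ e * u) by
      simp; ring]
    simp [Nat.ModEq]
  have hrange : ∀ x < k ^ g, m1 + t + M * x < k ^ e * (u + 1) := by
    intro x hx
    have : M * x ≤ M * k ^ g := by gcongr
    have h2 : M * (k ^ g + 1) = M * k ^ g + M := by ring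
    have h3 : k ^ e * (u + 1) = k ^ e * u + k ^ e := by ring
    omega
  have hJk : k ^ e * (u + 1) + J + 2 ≤ k ^ J := by
    have h1 : u + 1 ≤ k ^ u := by
      have := Nat.lt_pow_self (n := u) (show 1 < k by omega)
      omega
    have h2 : e + u + 1 ≤ k ^ (e + u) := by
      have := Nat.lt_pow_self (n := e + u) (show 1 < k by omega)
      omega
    have h3 : k ^ e * (u + 1) ≤ k ^ (e + u) := by rw [pow_add]; gcongr
    have h4 : k ^ J = k ^ (e + u) * (k * k) := by rw [hJ]; ring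
    have h5 : 4 ≤ k * k := by nlinarith
    have h6 : k ^ (e + u) * 4 ≤ k ^ J := by rw [h4]; gcongr
    omega
  have hJQ : k ^ J ≤ k ^ g * k ^ g := by
    rw [← pow_add]
    exact Nat.pow_le_pow_right (by omega) (by omega)
  have hJt : t + J ≤ 2 ^ t := by
    have h1 : 2 ^ t = 2 ^ (s + 1) * 2 ^ (r + 4) := by rw [← pow_add]; congr 1; omega
    have h2 : 2 ^ t = 2 * 2 ^ (t - 1) := by
      rw [← pow_succ']; congr 1
    have h3 : t - 1 < 2 ^ (t - 1) := Nat.lt_two_pow_self
    have h4 : 2 ^ (s + 1) ≤ 2 ^ (t - 1) := Nat.pow_le_pow_right (by norm_num) (by omega)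
    omega
  obtain ⟨x, hx, hT⟩ := exists_T_le hk (a := m1 + t) (M := M) (Q := k ^ g) (J := J) hQpos
    (fun j hj => by
      have := (hcrt m1 hm1).2 (t + j) (by omega) (by omega)
      rwa [← add_assoc] at this)
    (fun x hx => by have := hrange x hx; omega)
    (fun x hx => by have := hrange x hx; omega)
  refine ⟨m1 + M * x, t, by omega, by have := hrange x hx; omega,
    (hcrt _ (by simpa [Nat.ModEq] using hm1)).1, ?_⟩
  rw [show m1 + M * x + t = m1 + t + M * x by ring]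
  have hkR : (2 : ℝ) ≤ k := by exact_mod_cast hk
  have hlog : Real.log ((k ^ g : ℕ) : ℝ) ≤ (k : ℝ) ^ (s + 2) := by
    push_cast
    rw [Real.log_pow]
    have h1 : Real.log k ≤ k := (Real.log_le_sub_one_of_pos (by linarith)).trans (by linarith)
    have h2 : (g : ℝ) ≤ (k : ℝ) ^ (s + 1) := by
      have : g ≤ k ^ (s + 1) := by
        have := Nat.pow_le_pow_left hk (s + 1)
        omega
      exact_mod_cast this
    have h3 : 0 ≤ Real.log k := Real.log_nonneg (by linarith)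
    rw [pow_succ _ (s + 1)]
    gcongr
  have hpow : (4 : ℝ) ≤ (k : ℝ) ^ (s + 2) := by
    calc (4 : ℝ) = 2 ^ 2 := by norm_num
      _ ≤ (k : ℝ) ^ 2 := by gcongr
      _ ≤ _ := pow_le_pow_right₀ (by linarith) (by omega)
  have hk3 : (8 : ℝ) ≤ (k : ℝ) ^ 3 := by
    calc (8 : ℝ) = 2 ^ 3 := by norm_num
      _ ≤ _ := by gcongr
  have hfin : T k (m1 + t + M * x) < (k : ℝ) ^ (s + 2) * k ^ 3 := by nlinarith
  calc T k (m1 + t + M * x) * k ^ r < (k : ℝ) ^ (s + 2) * k ^ 3 * k ^ r := by gcongr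
    _ = k ^ t := by rw [ht]; ring

end Pool.Agent.Lib.MP_29e051_nt
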