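import Pool.Agent.Lib.MP_29e051_nt.Digits

set_option autoImplicit false

open Finset

namespace Pool.Agent.Lib.MP_29e051_nt

/-- number of ones in the binary expansion -/
def s2 (y : ℕ) : ℕ := (Nat.digits 2 y).sum

lemma s2_zero : s2 0 = 0 := by simp [s2]

lemma s2_rec (y : ℕ) : s2 y = y % 2 + s2 (y / 2) := by
  rcases Nat.eq_zero_or_pos y with rfl | hy
  · simp [s2]
  · unfold s2
    rw [Nat.digits_def' (by norm_num) hy, List.sum_cons]

lemma s2_le (y : ℕ) : s2 y ≤ y := Nat.digit_sum_le 2 y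

lemma s2_one : s2 1 = 1 := by
  rw [s2_rec]; simp [s2_zero]

lemma s2_bit (y b : ℕ) (hb : b < 2) : s2 (2 * y + b) = s2 y + b := by
  rw [s2_rec, show (2 * y + b) % 2 = b by omega, show (2 * y + b) / 2 = y by omega, add_comm]

lemma s2_succ (z : ℕ) : s2 (z + 1) ≤ s2 z + 1 := by
  induction z using Nat.strong_induction_on with
  | _ z ih =>
    rcases Nat.mod_two_eq_zero_or_one z with h | h
    · rw [s2_rec (z + 1), s2_rec z, show (z + 1) / 2 = z / 2 by omega]
      omega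
    · have := ih (z / 2) (by omega)
      rw [s2_rec (z + 1), s2_rec z, show (z + 1) / 2 = z / 2 + 1 by omega]
      omega

lemma s2_add (x y : ℕ) : s2 (x + y) ≤ s2 x + s2 y := by
  induction x using Nat.strong_induction_on generalizing y with
  | _ x ih =>
    rcases Nat.eq_zero_or_pos x with rfl | hx
    · simp [s2_zero]
    have h1 := ih (x / 2) (by omega) (y / 2)
    have h2 := s2_succ (x / 2 + y / 2)
    rw [s2_rec (x + y), s2_rec x, s2_rec y]
    by_cases h : x % 2 = 1 ∧ y % 2 = 1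
    · rw [show (x + y) / 2 = x / 2 + y / 2 + 1 by omega]
      omega
    · rw [show (x + y) / 2 = x / 2 + y / 2 by omega]
      omega

lemma s2_mul (x y : ℕ) : s2 (x * y) ≤ s2 x * s2 y := by
  induction x using Nat.strong_induction_on with
  | _ x ih =>
    rcases Nat.eq_zero_or_pos x with rfl | hx
    · simp [s2_zero]
    have h1 := ih (x / 2) (by omega)
    have h2 : x * y = (2 * (x / 2 * y) + 0) + x % 2 * y := by
      conv_lhs => rw [← Nat.div_add_mod x 2]
      ring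
    have h3 := s2_add (2 * (x / 2 * y) + 0) (x % 2 * y)
    rw [s2_bit _ 0 (by norm_num), ← h2] at h3
    have h4 : s2 (x % 2 * y) ≤ x % 2 * s2 y := by
      rcases Nat.mod_two_eq_zero_or_one x with h | h <;> rw [h] <;> simp [s2_zero]
    rw [s2_rec x, add_mul]
    omega

lemma s2_block (a q r : ℕ) (hr : r < 2 ^ a) : s2 (2 ^ a * q + r) = s2 q + s2 r := by
  induction a generalizing r with
  | zero =>
    obtain rfl : r = 0 := by simpa using hr
    simp [s2_zero]
  | succ a ih =>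
    have h1 := ih (r / 2) (by rw [pow_succ] at hr; omega)
    have h2 : 2 ^ (a + 1) * q + r = 2 * (2 ^ a * q + r / 2) + r % 2 := by
      conv_lhs => rw [← Nat.div_add_mod r 2]
      ring
    rw [h2, s2_bit _ _ (Nat.mod_lt _ (by norm_num)), h1, s2_rec r]
    ring

lemma s2_le_div (j y : ℕ) : s2 y ≤ j + y / 2 ^ j := by
  induction j generalizing y with
  | zero => simpa using s2_le y
  | succ j ih =>
    have h := ih (y / 2)
    rw [Nat.div_div_eq_div_mul, ← pow_succ'] at h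
    rw [s2_rec y]
    omega

lemma sum_s2 (a : ℕ) : 2 * ∑ c ∈ range (2 ^ a), s2 c = a * 2 ^ a := by
  induction a with
  | zero => simp [s2_zero]
  | succ a ih =>
    have h : ∑ c ∈ range (2 ^ a), s2 (2 ^ a + c) = ∑ c ∈ range (2 ^ a), (1 + s2 c) := by
      refine sum_congr rfl fun c hc => ?_
      have := s2_block a 1 c (mem_range.1 hc)
      rwa [mul_one, s2_one] at this
    rw [pow_succ, mul_two (2 ^ a), sum_range_add, h, sum_add_distrib]
    simp only [sum_const, card_range, smul_eq_mul, mul_one]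
    nlinarith

lemma s2_half (j : ℕ) : s2 j ≤ (j + 1) / 2 := by
  have h := s2_le (j / 2)
  rw [s2_rec j]
  rcases Nat.lt_or_ge j 2 with h2 | h2
  · omega
  · have h3 := s2_le (j / 2 / 2)
    rw [s2_rec (j / 2)]
    omega

lemma s2_three {v : ℕ} (hv : 3 ≤ v) : s2 (v + 1) ≤ v / 2 := by
  have h1 := s2_add (2 * (2 * 1 + 0) + 0) (v - 3)
  rw [s2_bit _ 0 (by norm_num), s2_bit _ 0 (by norm_num), s2_one,
    show 2 * (2 * 1 + 0) + 0 + (v - 3) = v + 1 by omega] at h1
  have h2 := s2_half (v - 3)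
  omega

/-- number of square divisors -/
def rs (n : ℕ) : ℕ := (n.divisors.filter (fun d => d ^ 2 ∣ n)).card

lemma rs_mul {a b : ℕ} (ha : a ≠ 0) (hb : b ≠ 0) (hab : Nat.Coprime a b) :
    rs a * rs b ≤ rs (a * b) := by
  unfold rs
  rw [← card_product]
  apply card_le_card_of_injOn (fun x => x.1 * x.2)
  · intro x hx
    simp only [coe_product, coe_filter, Nat.mem_divisors, Set.mem_prod, Set.mem_ofPred_eq] at hx ⊢
    exact ⟨⟨mul_dvd_mul hx.1.1.1 hx.2.1.1, mul_ne_zero ha hb⟩,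
      by rw [mul_pow]; exact mul_dvd_mul hx.1.2 hx.2.2⟩
  · intro x hx y hy h
    simp only [coe_product, coe_filter, Nat.mem_divisors, Set.mem_prod, Set.mem_ofPred_eq] at hx hy
    have h' : x.1 * x.2 = y.1 * y.2 := h
    have h1 : x.1 ∣ y.1 := by
      have hc : Nat.Coprime x.1 y.2 :=
        (hab.coprime_dvd_left hx.1.1.1).coprime_dvd_right hy.2.1.1
      exact hc.dvd_of_dvd_mul_right (h' ▸ dvd_mul_right _ _)
    have h2 : y.1 ∣ x.1 := by
      have hc : Nat.Coprime y.1 x.2 :=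
        (hab.coprime_dvd_left hy.1.1.1).coprime_dvd_right hx.2.1.1
      exact hc.dvd_of_dvd_mul_right (h' ▸ dvd_mul_right _ _)
    have h3 : x.1 = y.1 := Nat.dvd_antisymm h1 h2
    have h4 : 0 < y.1 := Nat.pos_of_dvd_of_pos hy.1.1.1 (Nat.pos_of_ne_zero ha)
    rw [h3] at h'
    exact Prod.ext h3 (Nat.eq_of_mul_eq_mul_left h4 h')

lemma rs_pow {p : ℕ} (hp : p.Prime) (e : ℕ) : e / 2 + 1 ≤ rs (p ^ e) := by
  unfold rs
  rw [← card_range (e / 2 + 1)]
  apply card_le_card_of_injOn (fun i => p ^ i)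
  · intro i hi
    simp only [coe_range, Set.mem_Iio, coe_filter, Nat.mem_divisors, Set.mem_ofPred_eq] at hi ⊢
    refine ⟨⟨pow_dvd_pow p (by omega), pow_ne_zero _ hp.ne_zero⟩, ?_⟩
    rw [← pow_mul]
    exact pow_dvd_pow p (by omega)
  · intro i _ j _ h
    exact Nat.pow_right_injective hp.two_le h

lemma tau_pow {p : ℕ} (hp : p.Prime) (e : ℕ) : tau (p ^ e) = e + 1 := by
  unfold tau
  rw [Nat.divisors_prime_pow hp, card_map, card_range]

lemma tau_mul {a b : ℕ} (hab : Nat.Coprime a b) : tau (a * b) = tau a * tau b :=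
  hab.card_divisors_mul

lemma s2_tau_le (n : ℕ) : s2 (tau n) ≤ rs n := by
  induction n using Nat.recOnPosPrimePosCoprime with
  | prime_pow p e hp _ =>
    rw [tau_pow hp]
    have h1 := s2_half (e + 1)
    have h2 := rs_pow hp e
    omega
  | zero => simp [tau, s2_zero]
  | one => simp [tau, s2_one, rs, filter_singleton]
  | coprime a b ha hb hab iha ihb =>
    rw [tau_mul hab]
    exact (s2_mul _ _).trans ((Nat.mul_le_mul iha ihb).trans (rs_mul (by omega) (by omega) hab))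

lemma s2_tau_sharp {n : ℕ} (hn : n ≠ 0) :
    s2 (tau n) + ((if 8 ∣ n then 1 else 0) + (if 72 ∣ n then 1 else 0) +
      (if 200 ∣ n then 1 else 0) + (if 392 ∣ n then 1 else 0)) ≤ rs n := by
  by_cases h8 : 8 ∣ n
  swap
  · have h := s2_tau_le n
    rw [if_neg h8, if_neg (fun h => h8 (Dvd.dvd.trans (by norm_num) h)),
      if_neg (fun h => h8 (Dvd.dvd.trans (by norm_num) h)),
      if_neg (fun h => h8 (Dvd.dvd.trans (by norm_num) h))]
    omega
  obtain ⟨v, m, hm, rfl⟩ := Nat.exists_eq_two_pow_mul_odd hn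
  have hm0 : m ≠ 0 := by rintro rfl; simp at hn
  have hcop : Nat.Coprime (2 ^ v) m := (Nat.coprime_two_left.2 hm).pow_left v
  have hv : 3 ≤ v := by
    have h1 : 2 ^ 3 ∣ 2 ^ v :=
      ((Nat.coprime_two_left.2 hm).pow_left 3).dvd_of_dvd_mul_right h8
    exact (Nat.pow_dvd_pow_iff_le_right (by norm_num)).1 h1
  have h1 : s2 (tau (2 ^ v * m)) ≤ v / 2 * rs m := by
    rw [tau_mul hcop, tau_pow Nat.prime_two]
    exact (s2_mul _ _).trans (Nat.mul_le_mul (s2_three hv) (s2_tau_le m))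
  have h2 : (v / 2 + 1) * rs m ≤ rs (2 ^ v * m) :=
    (Nat.mul_le_mul_right _ (rs_pow Nat.prime_two v)).trans (rs_mul (by positivity) hm0 hcop)
  have h3 : ∀ d : ℕ, Odd d → 8 * d ^ 2 ∣ 2 ^ v * m → d ^ 2 ∣ m := by
    intro d hd h
    have hc : Nat.Coprime (d ^ 2) (2 ^ v) :=
      ((Nat.coprime_two_right.2 hd).pow_left 2).pow_right v
    exact hc.dvd_of_dvd_mul_left ((dvd_mul_left _ _).trans h)
  have h4 : (({1, 3, 5, 7} : Finset ℕ).filter (fun d => 8 * d ^ 2 ∣ 2 ^ v * m)).card ≤ rs m := by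
    apply card_le_card
    intro d hd
    rw [mem_filter] at hd
    have hodd : Odd d := by
      have := hd.1
      simp only [mem_insert, mem_singleton] at this
      rcases this with rfl | rfl | rfl | rfl <;> decide
    have h5 := h3 d hodd hd.2
    simp only [mem_filter, Nat.mem_divisors]
    exact ⟨⟨(dvd_pow_self d (by norm_num)).trans h5, hm0⟩, h5⟩
  rw [card_filter, sum_insert (by decide), sum_insert (by decide), sum_insert (by decide),
    sum_singleton] at h4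
  norm_num only at h4
  rw [add_mul, one_mul] at h2
  omega

lemma sum_rs_le (N : ℕ) : (∑ n ∈ Ioc 0 N, (rs n : ℝ)) ≤ 1.645 * N := by
  have h1 : ∑ n ∈ Ioc 0 N, rs n ≤ ∑ d ∈ Ioc 0 N, N / d ^ 2 := by
    calc ∑ n ∈ Ioc 0 N, rs n
        ≤ ∑ n ∈ Ioc 0 N, ((Ioc 0 N).filter (fun d => d ^ 2 ∣ n)).card := by
          refine sum_le_sum fun n hn => card_le_card fun d hd => ?_
          simp only [mem_filter, Nat.mem_divisors, mem_Ioc] at hd hn ⊢
          exact ⟨⟨Nat.pos_of_dvd_of_pos hd.1.1 hn.1, (Nat.le_of_dvd hn.1 hd.1.1).trans hn.2⟩, hd.2⟩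
      _ = ∑ d ∈ Ioc 0 N, ((Ioc 0 N).filter (fun n => d ^ 2 ∣ n)).card := by
          simp only [card_filter]
          exact sum_comm
      _ = _ := sum_congr rfl fun d _ => Nat.Ioc_filter_dvd_card_eq_div N (d ^ 2)
  have h2 : ∑ d ∈ Ioc 0 N, (1 : ℝ) / (d : ℝ) ^ 2 ≤ 1.645 := by
    refine (sum_le_hasSum _ (fun _ _ => by positivity) hasSum_zeta_two).trans ?_
    have h3 := Real.pi_lt_d4
    have h4 := Real.pi_pos
    nlinarith
  calc (∑ n ∈ Ioc 0 N, (rs n : ℝ)) = ((∑ n ∈ Ioc 0 N, rs n : ℕ) : ℝ) := by push_cast; rfl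
    _ ≤ ((∑ d ∈ Ioc 0 N, N / d ^ 2 : ℕ) : ℝ) := by exact_mod_cast h1
    _ ≤ ∑ d ∈ Ioc 0 N, (1 : ℝ) / (d : ℝ) ^ 2 * N := by
        rw [Nat.cast_sum]
        refine sum_le_sum fun d _ => Nat.cast_div_le.trans (le_of_eq ?_)
        push_cast
        ring
    _ ≤ _ := by
        rw [← sum_mul]
        gcongr

lemma sum_ite_ge (N q : ℕ) :
    (N : ℝ) / q - 1 ≤ ∑ n ∈ Ioc 0 N, ((if q ∣ n then 1 else 0 : ℕ) : ℝ) := by
  rw [← Nat.cast_sum, ← card_filter, Nat.Ioc_filter_dvd_card_eq_div]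
  have h1 : (N : ℝ) / q < ⌊(N : ℝ) / q⌋₊ + 1 := Nat.lt_floor_add_one _
  rw [Nat.floor_div_eq_div] at h1
  linarith

lemma sum_s2_tau_le (N : ℕ) : (∑ n ∈ Ioc 0 N, (s2 (tau n) : ℝ)) ≤ 1.4986 * N + 4 := by
  have h1 := sum_rs_le N
  have h2 := sum_ite_ge N 8
  have h3 := sum_ite_ge N 72
  have h4 := sum_ite_ge N 200
  have h5 := sum_ite_ge N 392
  have h6 : ∑ n ∈ Ioc 0 N, ((s2 (tau n) : ℝ) + (((if 8 ∣ n then 1 else 0 : ℕ) : ℝ) +
      ((if 72 ∣ n then 1 else 0 : ℕ) : ℝ) + ((if 200 ∣ n then 1 else 0 : ℕ) : ℝ) +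
      ((if 392 ∣ n then 1 else 0 : ℕ) : ℝ))) ≤ ∑ n ∈ Ioc 0 N, (rs n : ℝ) := by
    refine sum_le_sum fun n hn => ?_
    have := s2_tau_sharp (n := n) (by have := (mem_Ioc.1 hn).1; omega)
    exact_mod_cast this
  simp only [sum_add_distrib] at h6
  have h7 : (0 : ℝ) ≤ N := by positivity
  push_cast at h2 h3 h4 h5 h6
  linarith

end Pool.Agent.Lib.MP_29e051_nt
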