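import Pool.Agent.Lib.MP_29e051_nt.NnBin

set_option autoImplicit false

open Finset Filter Topology

namespace Pool.Agent.Lib.MP_29e051_nt

lemma exists_sparse (a : ℕ) (ha : 1 ≤ a) (N : ℕ) :
    ∃ J : ℕ, ((2 ^ a : ℕ) : ℝ) ^ N * T (2 ^ a) 0 = J + T (2 ^ a) N ∧
      s2 J ≤ ∑ n ∈ Ioc 0 N, s2 (tau n) := by
  have hk : 2 ≤ 2 ^ a := le_self_pow₀ (by norm_num) (by omega)
  have hk0 : (0 : ℝ) < ((2 ^ a : ℕ) : ℝ) := by positivity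
  induction N with
  | zero => exact ⟨0, by simp, by simp [s2_zero]⟩
  | succ m ih =>
    obtain ⟨I, hI, hS⟩ := ih
    refine ⟨2 ^ a * I + tau (m + 1), ?_, ?_⟩
    · have h := T_split hk m 1
      simp only [range_one, sum_singleton, add_zero, zero_add, pow_one] at h
      rw [pow_succ, mul_comm _ ((2 ^ a : ℕ) : ℝ), mul_assoc, hI, h, Nat.cast_add, Nat.cast_mul]
      field_simp
      ring
    · rw [sum_Ioc_succ_top (Nat.zero_le m)]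
      have h1 := s2_add (2 ^ a * I) (tau (m + 1))
      have h2 := s2_block a I 0 (by positivity)
      rw [add_zero, s2_zero] at h2
      omega

lemma sum_digits_le (a : ℕ) (x : ℝ) (N : ℕ) :
    ∑ m ∈ range N, s2 (⌊x * ((2 ^ a : ℕ) : ℝ) ^ (m + 1)⌋₊ % 2 ^ a) ≤
      s2 ⌊x * ((2 ^ a : ℕ) : ℝ) ^ N⌋₊ := by
  have hk0 : (0 : ℝ) < ((2 ^ a : ℕ) : ℝ) := by positivity
  induction N with
  | zero => simp
  | succ m ih =>
    rw [sum_range_succ]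
    have h1 : ⌊x * ((2 ^ a : ℕ) : ℝ) ^ (m + 1)⌋₊ / 2 ^ a = ⌊x * ((2 ^ a : ℕ) : ℝ) ^ m⌋₊ := by
      rw [← Nat.floor_div_natCast]
      congr 1
      field_simp
      ring
    have h2 := s2_block a (⌊x * ((2 ^ a : ℕ) : ℝ) ^ (m + 1)⌋₊ / 2 ^ a)
      (⌊x * ((2 ^ a : ℕ) : ℝ) ^ (m + 1)⌋₊ % 2 ^ a) (Nat.mod_lt _ (by positivity))
    rw [Nat.div_add_mod, h1] at h2
    omega

lemma ones_le (a : ℕ) (ha : 1 ≤ a) (N : ℕ) :
    ((∑ m ∈ range N, s2 (⌊T (2 ^ a) 0 * ((2 ^ a : ℕ) : ℝ) ^ (m + 1)⌋₊ % 2 ^ a) : ℕ) : ℝ) ≤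
      1.499 * N + 17 := by
  have hk : 2 ≤ 2 ^ a := le_self_pow₀ (by norm_num) (by omega)
  obtain ⟨J, hJ, hS⟩ := exists_sparse a ha N
  have h1 := sum_digits_le a (T (2 ^ a) 0) N
  have h0 := T_nonneg (2 ^ a) N
  rw [mul_comm (T (2 ^ a) 0) (_ ^ N), hJ, add_comm (J : ℝ), Nat.floor_add_natCast h0] at h1
  have h2 := s2_add ⌊T (2 ^ a) N⌋₊ J
  have h3 := s2_le_div 12 ⌊T (2 ^ a) N⌋₊
  have h4 : ((⌊T (2 ^ a) N⌋₊ / 2 ^ 12 : ℕ) : ℝ) ≤ (N + 2) / 2 ^ 12 := by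
    refine Nat.cast_div_le.trans ?_
    have h8 := (Nat.floor_le h0).trans (T_le hk N)
    push_cast
    linarith
  have h5 := sum_s2_tau_le N
  have h6 : ((∑ m ∈ range N,
      s2 (⌊T (2 ^ a) 0 * ((2 ^ a : ℕ) : ℝ) ^ (m + 1)⌋₊ % 2 ^ a) : ℕ) : ℝ) ≤
      ((12 + ⌊T (2 ^ a) N⌋₊ / 2 ^ 12 + ∑ n ∈ Ioc 0 N, s2 (tau n) : ℕ) : ℝ) := by
    exact Nat.cast_le.2 (by omega)
  rw [Nat.cast_add, Nat.cast_add, Nat.cast_sum (Ioc 0 N)] at h6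
  have h7 : (0 : ℝ) ≤ N := by positivity
  norm_num at h4 h6 ⊢
  linarith

theorem not_simply_normal (a : ℕ) (ha : 3 ≤ a) (d : ℕ → Fin (2 ^ a))
    (hd : ∀ m, (d m : ℕ) = ⌊T (2 ^ a) 0 * ((2 ^ a : ℕ) : ℝ) ^ (m + 1)⌋₊ % 2 ^ a) :
    ¬ ∀ c : Fin (2 ^ a), Tendsto
      (fun N : ℕ => (((range N).filter (fun n => d n = c)).card : ℝ) / N) atTop
      (𝓝 (1 / ((2 ^ a : ℕ) : ℝ))) := by
  intro h
  have hk0 : (0 : ℝ) < ((2 ^ a : ℕ) : ℝ) := by positivity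
  have h1 := tendsto_finsetSum (univ : Finset (Fin (2 ^ a)))
    (fun c _ => (h c).const_mul ((s2 c : ℕ) : ℝ))
  have h2 : ∑ c : Fin (2 ^ a), ((s2 c : ℕ) : ℝ) * (1 / ((2 ^ a : ℕ) : ℝ)) = a / 2 := by
    rw [← sum_mul, Fin.sum_univ_eq_sum_range (fun c => ((s2 c : ℕ) : ℝ)), ← Nat.cast_sum]
    have h3 : ((2 * ∑ c ∈ range (2 ^ a), s2 c : ℕ) : ℝ) = ((a * 2 ^ a : ℕ) : ℝ) := by
      rw [sum_s2]
    rw [Nat.cast_mul, Nat.cast_mul] at h3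
    field_simp
    push_cast at h3 ⊢
    linarith
  rw [h2] at h1
  have h3 : Tendsto (fun N : ℕ => (1.499 : ℝ) + 17 / N) atTop (𝓝 (1.499 + 0)) :=
    tendsto_const_nhds.add (tendsto_const_div_atTop_nhds_zero_nat 17)
  have h4 := le_of_tendsto_of_tendsto h1 h3 (by
    filter_upwards [eventually_gt_atTop 0] with N hN
    have hN' : (0 : ℝ) < N := by exact_mod_cast hN
    have h5 := ones_le a (by omega) N
    have h6 : ∑ m ∈ range N, s2 (⌊T (2 ^ a) 0 * ((2 ^ a : ℕ) : ℝ) ^ (m + 1)⌋₊ % 2 ^ a) =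
        ∑ c : Fin (2 ^ a), s2 c * ((range N).filter (fun n => d n = c)).card := by
      rw [← sum_fiberwise (range N) d]
      refine sum_congr rfl fun c _ => ?_
      rw [mul_comm, ← smul_eq_mul, ← sum_const]
      refine sum_congr rfl fun m hm => ?_
      rw [← hd, (mem_filter.1 hm).2]
    rw [h6] at h5
    push_cast at h5
    simp only [← mul_div_assoc]
    rw [← sum_div, div_le_iff₀ hN', add_mul, div_mul_cancel₀ _ hN'.ne']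
    exact h5)
  have h5 : (3 : ℝ) ≤ a := by exact_mod_cast ha
  linarith

end Pool.Agent.Lib.MP_29e051_nt
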